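import Pool.Agent.H.MP_7bf93d_lc.B
set_option linter.style.longLine false
namespace Pool.Agent.Results.MP_7bf93d_lc.No
open Set Cardinal Pool.Agent.H.MP_7bf93d_lc

/-- The graph of the pairs of colour `i`. -/
def colGraph {V : Type} (c : Sym2 V → ℕ) (i : ℕ) : SimpleGraph V where
  Adj x y := x ≠ y ∧ c s(x, y) = i
  symm := ⟨fun _ _ h => ⟨h.1.symm, by rw [Sym2.eq_swap]; exact h.2⟩⟩
  loopless := ⟨fun _ h => h.1 rfl⟩

/-- The subgraph of `G` induced on `A` is highly connected. -/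
def HighlyConnected {V : Type} (G : SimpleGraph V) (A : Set V) : Prop :=
  ∀ Y ⊆ A, #Y < #A → (G.induce (A \ Y)).Connected

theorem result : ∀ (V : Type), #V = ℵ_ 2 → ∀ c : Sym2 V → ℕ,
    ∃ (i : ℕ) (A : Set V), #A = ℵ₁ ∧ HighlyConnected (colGraph c i) A := by
  intro V hV c
  obtain ⟨j, A, hA, h1, h2⟩ := core (V := V) (by rw [hV, a2]; exact (Order.lt_succ _).not_ge)
    (fun j => (colGraph c j).Adj) (fun j a b h => h.symm) fun a b h => ⟨_, h, rfl⟩
  refine ⟨j, A, hA, fun Y _ hY => ?_⟩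
  rw [hA, Cardinal.lt_aleph_one_iff, Cardinal.le_aleph0_iff_set_countable] at hY
  obtain ⟨x, hx, hx'⟩ := pkc h1 hY
  have : Nonempty ↥(A \ Y) := ⟨⟨x, hx, hx'⟩⟩
  refine ⟨fun a b => ?_⟩
  have k : ∀ y, Cn (colGraph c j).Adj (A \ Y) a y → ∀ hy : y ∈ A \ Y,
      ((colGraph c j).induce (A \ Y)).Reachable a ⟨y, hy⟩ := by
    intro y p
    induction p with
    | refl => exact fun _ => SimpleGraph.Reachable.refl _
    | tail _ r ih => exact fun hy => (ih r.1).trans (SimpleGraph.Adj.reachable r.2.2)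
  exact k b (h2 Y hY a a.2 b b.2) b.2

end Pool.Agent.Results.MP_7bf93d_lc.No
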